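import Pool.Agent.U47.VD.SetCover

set_option autoImplicit false

/-!
# The gap theorem for min-Cost-VERTEX-DEL

The reduction `Pool.Agent.H569R2.VDel.red` from Set Cover to min-Cost-VERTEX-DEL is applied to the
Set Cover instances of `Pool.Agent.U47.VD.SetCover`.
-/

namespace Pool.Agent.U47.VD

open Pool.Agent.NPC Pool.Agent.R550.HS Pool.Agent.H569R2.VDel

theorem dual_length (N : ℕ) (H : List (List ℕ)) : (dual N H).length = N := by simp [dual]

/-- A gap for the size of a set cover becomes a gap for the cost of a feasible solution. -/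
theorem cost_gt {A K c : ℕ} (hA : c + 1 ≤ A) {I : List (List ℕ)} (hK : K ≤ I.length)
    (h : ∀ C : List (List ℕ), IsCover I C → 2 * c * K < C.length) {S : List ℕ}
    (hS : Feasible (red 1 A I) S) : c * (NN 1 I * K) < cost (red 1 A I) S := by
  by_contra hcon
  push Not at hcon
  have hn := nn_lt_NN 1 I
  have hlt : cost (red 1 A I) S < big 1 A I := by
    unfold big
    have h1 : NN 1 I * K ≤ NN 1 I * I.length := Nat.mul_le_mul_left _ hK
    have h2 : c * (NN 1 I * K) ≤ c * (NN 1 I * I.length) := Nat.mul_le_mul_left _ h1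
    have h3 : (c + 1) * (NN 1 I * I.length + 1) ≤ A * (NN 1 I * I.length + 1) :=
      Nat.mul_le_mul_right _ hA
    have h4 : (c + 1) * (NN 1 I * I.length + 1) =
        c * (NN 1 I * I.length) + (NN 1 I * I.length + c + 1) := by ring
    omega
  have hcov := isCover_back 1 A I hS (no_big 1 A I hlt)
  have h1 := h _ hcov
  have h2 := le_cost 1 A I (by omega) S
  have h3 : NN 1 I = 2 * (nn I + 1) := by unfold NN; ring
  have h4 : NN 1 I - nn I = nn I + 2 := by omega
  rw [h4] at h2
  have h5 : (nn I + 2) * (2 * c * K + 1) ≤ (nn I + 2) * (back 1 (I, S)).length :=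
    Nat.mul_le_mul_left _ h1
  have h6 : c * (NN 1 I * K) = (nn I + 1) * (2 * c * K) := by rw [h3]; ring
  nlinarith [Nat.zero_le (2 * c * K), Nat.zero_le (nn I)]

/-- **The gap theorem for min-Cost-VERTEX-DEL with two costs.** -/
theorem gapVD (c : ℕ) {L : Set (List Bool)} (hL : InNP L) :
    ∃ (f : List Bool → Inst) (k : List Bool → ℕ), NPC.Poly (fun x => (f x, k x)) ∧
      ∀ x, TwoCosts (f x) ∧ (x ∈ L → ∃ S, Feasible (f x) S ∧ cost (f x) S ≤ k x) ∧
        (x ∉ L → ∀ S, Feasible (f x) S → c * k x < cost (f x) S) := by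
  obtain ⟨t, ht, hg⟩ := gap (2 * c)
  obtain ⟨m, H, hm, hH, hx⟩ := hg hL
  have hI : NPC.Poly (fun x => dual ((3 * m x) ^ t) (H x)) :=
    poly_dual (uPoly_powc (UPoly.mul (UPoly.const 3) hm) t) hH
  refine ⟨fun x => red 1 (c + 1) (dual ((3 * m x) ^ t) (H x)),
    fun x => NN 1 (dual ((3 * m x) ^ t) (H x)) * (2 * m x) ^ t, ?_, fun x => ?_⟩
  · refine Poly.pair ((poly_red 1 (c + 1)).comp hI) ?_
    exact Poly.mul (p_NN hI) (poly_powc (Poly.mul (NPC.Poly.const 2) hm.toPoly) t)
  obtain ⟨g1, g2, g3, g4, g5, g6, g7⟩ := hx x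
  refine ⟨twoCosts_red _ _ _, fun hxL => ?_, fun hxL S hS => ?_⟩
  · obtain ⟨X, hX, hXc⟩ := g6 hxL
    obtain ⟨C, hC, hCc⟩ := cover_of_hits g3 hX
    obtain ⟨S, hS, hSc⟩ := feasible_of_cover 1 (c + 1) _ hC
    exact ⟨S, hS, hSc.trans (Nat.mul_le_mul_left _ (hCc.trans hXc))⟩
  · refine cost_gt le_rfl ?_ (fun C hC => ?_) hS
    · rw [dual_length]
      exact Nat.pow_le_pow_left (by omega) t
    · obtain ⟨X, hX, hXc⟩ := hits_of_cover g3 (fun D hD h0 => by
        have := g2 D hD
        rw [h0] at this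
        have h2 : 0 < 2 ^ t := by positivity
        simp at this
        omega) hC
      exact (g7 hxL X hX).trans_le hXc

/-- A polynomial-time constant-factor approximation algorithm for min-Cost-VERTEX-DEL with two costs
gives `P = NP`. -/
theorem collapse_of_vdApprox {α : ℝ} (h : VDApprox TwoCosts α) {L : Set (List Bool)}
    (hL : InNP L) : InP L := by
  have h1 : VDApprox TwoCosts (max α 1) := by
    obtain ⟨F, hF, hs⟩ := h
    refine ⟨F, hF, fun I hI => ?_⟩
    obtain ⟨S, h1, h2, h3⟩ := hs I hI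
    exact ⟨S, h1, h2, fun S' hS' =>
      (h3 S' hS').trans (mul_le_mul_of_nonneg_right (le_max_left _ _) (by positivity))⟩
  exact collapse_of_scApprox (scApprox_of_vdApprox (le_max_right _ _) 1 le_rfl h1) hL

end Pool.Agent.U47.VD
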