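import Pool.Agent.R550.HSGap
import Pool.Agent.H569R2.VDel.Main

set_option autoImplicit false

/-!
# Set Cover has no polynomial-time constant-factor approximation unless `P = NP`

The Set Cover instance is the dual of the hypergraph of the gap theorem for Hitting Set
(`Pool.Agent.R550.HS.gap`, which comes from the PCP theorem): for every vertex `a` the set of the
indices of the hyperedges that contain `a`.
-/

namespace Pool.Agent.U47.VD

open Pool.Agent.NPC Pool.Agent.R550.HS Pool.Agent.H569R2.VDel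

/-- the indices of the hyperedges containing `a` -/
def row (H : List (List ℕ)) (a : ℕ) : List ℕ :=
  (List.range H.length).filter fun j => decide (a ∈ H.getD j [])

/-- the dual of the hypergraph `H` on the vertices `0, …, N - 1` -/
def dual (N : ℕ) (H : List (List ℕ)) : List (List ℕ) := (List.range N).map fun a => row H a

theorem mem_row {H : List (List ℕ)} {a j : ℕ} : j ∈ row H a ↔ j < H.length ∧ a ∈ H.getD j [] := by
  simp [row]

theorem mem_dual {N : ℕ} {H : List (List ℕ)} {s : List ℕ} :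
    s ∈ dual N H ↔ ∃ a < N, row H a = s := by
  simp [dual]

theorem getD_mem {H : List (List ℕ)} {j : ℕ} (hj : j < H.length) : H.getD j [] ∈ H := by
  rw [List.getD_eq_getElem?_getD, List.getElem?_eq_getElem hj]
  exact List.getElem_mem hj

/-- a hitting set gives a cover -/
theorem cover_of_hits {N : ℕ} {H : List (List ℕ)} (hlt : ∀ C ∈ H, ∀ a ∈ C, a < N)
    {X : Finset ℕ} (hX : Hits X H) :
    ∃ C : List (List ℕ), IsCover (dual N H) C ∧ C.length ≤ X.card := by
  classical
  refine ⟨((X.filter fun a => a < N).toList).map (row H), ⟨?_, ?_⟩, ?_⟩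
  · intro s hs
    rw [List.mem_map] at hs
    obtain ⟨a, ha, rfl⟩ := hs
    rw [Finset.mem_toList, Finset.mem_filter] at ha
    exact mem_dual.2 ⟨a, ha.2, rfl⟩
  · intro s hs j hj
    obtain ⟨b, _, rfl⟩ := mem_dual.1 hs
    obtain ⟨hj1, _⟩ := mem_row.1 hj
    obtain ⟨a, ha1, ha2⟩ := hX _ (getD_mem hj1)
    refine ⟨row H a, ?_, mem_row.2 ⟨hj1, ha1⟩⟩
    rw [List.mem_map]
    refine ⟨a, ?_, rfl⟩
    rw [Finset.mem_toList, Finset.mem_filter]
    exact ⟨ha2, hlt _ (getD_mem hj1) a ha1⟩
  · rw [List.length_map, Finset.length_toList]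
    exact Finset.card_filter_le _ _

/-- a cover gives a hitting set -/
theorem hits_of_cover {N : ℕ} {H : List (List ℕ)} (hlt : ∀ C ∈ H, ∀ a ∈ C, a < N)
    (hne : ∀ C ∈ H, C ≠ []) {C : List (List ℕ)} (hC : IsCover (dual N H) C) :
    ∃ X : Finset ℕ, Hits X H ∧ X.card ≤ C.length := by
  classical
  have h1 : ∀ s ∈ C, ∃ a, row H a = s := fun s hs => by
    obtain ⟨a, _, ha⟩ := mem_dual.1 (hC.1 s hs)
    exact ⟨a, ha⟩
  choose! f hf using h1
  refine ⟨(C.map f).toFinset, ?_, (List.toFinset_card_le _).trans (by rw [List.length_map])⟩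
  intro D hD
  obtain ⟨j, hj, rfl⟩ := List.getElem_of_mem hD
  have e1 : H.getD j [] = H[j] := by
    rw [List.getD_eq_getElem?_getD, List.getElem?_eq_getElem hj]
    rfl
  obtain ⟨a, ha⟩ := List.exists_mem_of_ne_nil _ (hne _ hD)
  obtain ⟨s, hs, hjs⟩ := hC.2 (row H a) (mem_dual.2 ⟨a, hlt _ hD a ha, rfl⟩) j
    (mem_row.2 ⟨hj, by rw [e1]; exact ha⟩)
  refine ⟨f s, ?_, ?_⟩
  · rw [← hf s hs] at hjs
    have := (mem_row.1 hjs).2
    rwa [e1] at this
  · rw [List.mem_toFinset, List.mem_map]
    exact ⟨s, hs, rfl⟩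

theorem poly_dual {α : Type} [TEnc α] {N : α → ℕ} {H : α → List (List ℕ)} (hN : UPoly N)
    (hH : NPC.Poly H) : NPC.Poly (fun a => dual (N a) (H a)) := by
  unfold dual row
  have h1 : NPC.Poly (fun p : α × ℕ => List.range (H p.1).length) :=
    (UPoly.length hH).range.comp (Poly.fst Poly.id)
  refine NPC.Poly.map (F := fun a b => (List.range (H a).length).filter fun j =>
    decide (b ∈ (H a).getD j [])) hN.range ?_
  refine Poly.filter (p := fun (p : α × ℕ) j => decide (p.2 ∈ (H p.1).getD j [])) h1 ?_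
  fun_prop

/-- A polynomial-time constant-factor approximation algorithm for Set Cover gives `P = NP`. -/
theorem collapse_of_scApprox {β : ℝ} (h : SCApprox β) {L : Set (List Bool)} (hL : InNP L) :
    InP L := by
  obtain ⟨F, hF, hFs⟩ := h
  obtain ⟨t, ht, hg⟩ := gap ⌈β⌉₊
  obtain ⟨m, H, hm, hH, hx⟩ := hg hL
  let f : List Bool → List (List ℕ) := fun x => dual ((3 * m x) ^ t) (H x)
  let k : List Bool → ℕ := fun x => ⌈β⌉₊ * (2 * m x) ^ t
  have hf : NPC.Poly f := poly_dual (uPoly_powc (UPoly.mul (UPoly.const 3) hm) t) hH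
  have hk : NPC.Poly k := Poly.mul (NPC.Poly.const _) (poly_powc (Poly.mul (NPC.Poly.const 2)
    hm.toPoly) t)
  let d : List Bool → Bool := fun x => (unbits (List (List ℕ)) (F (bits (f x)))).any
    fun C => decide (C.length ≤ k x)
  have hd : NPC.Poly d := by
    refine Poly.optAny_fp (o := fun x => unbits (List (List ℕ)) (F (bits (f x))))
      (h := fun x C => decide (C.length ≤ k x)) ?_ ?_
    · exact poly_unbits.comp ((Pool.Agent.H622R2.poly_of_polyTime hF).comp
        (R671.poly_bits.comp hf))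
    · have hk' : NPC.Poly (fun p : List Bool × List (List ℕ) => k p.1) :=
        hk.comp (Poly.fst Poly.id)
      exact Poly.decide_le (Poly.length (Poly.snd Poly.id)) hk'
  refine ⟨fun x => [d x], polyTime_of_poly hd, fun x => ?_⟩
  have hdx : [d x] = [true] ↔ d x = true := by simp
  rw [hdx]
  obtain ⟨C, hC1, hC2, hC3⟩ := hFs (f x)
  have hdC : d x = true ↔ C.length ≤ k x := by
    simp only [d]
    rw [hC1, unbits_bits]
    simp
  rw [hdC]
  obtain ⟨g1, g2, g3, g4, g5, g6, g7⟩ := hx x
  constructor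
  · intro hxL
    obtain ⟨X, hX, hXc⟩ := g6 hxL
    obtain ⟨C', hC', hC'c⟩ := cover_of_hits g3 hX
    have e1 := hC3 C' hC'
    have e2 : (C.length : ℝ) ≤ (k x : ℝ) := by
      refine e1.trans ?_
      have e3 : (C'.length : ℝ) ≤ ((2 * m x) ^ t : ℕ) := by exact_mod_cast hC'c.trans hXc
      calc β * (C'.length : ℝ) ≤ ⌈β⌉₊ * (C'.length : ℝ) :=
            mul_le_mul_of_nonneg_right (Nat.le_ceil β) (by positivity)
        _ ≤ ⌈β⌉₊ * (((2 * m x) ^ t : ℕ) : ℝ) := mul_le_mul_of_nonneg_left e3 (by positivity)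
        _ = (k x : ℝ) := by simp only [k]; push_cast; ring
    exact_mod_cast e2
  · intro hle
    by_contra hxL
    obtain ⟨X, hX, hXc⟩ := hits_of_cover g3 (fun D hD h0 => by
      have := g2 D hD
      rw [h0] at this
      have h2 : 0 < 2 ^ t := by positivity
      simp at this
      omega) hC2
    have := g7 hxL X hX
    simp only [k] at hle
    omega

end Pool.Agent.U47.VD
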